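import Pool.Agent.N361.DC.Def

set_option autoImplicit false

/-! # Part CONF: the average number of pairs of members with two common points -/

namespace Pool.Agent.N87.DC

open Finset Pool.Agent.N361.DC

/-- the number of families of `m` members containing two given members -/
lemma card_two {X : Finset (Finset ℕ)} {A A' : Finset ℕ} (hA : A ∈ X) (hA' : A' ∈ X)
    (hne : A ≠ A') (m : ℕ) :
    ((powersetCard m X).filter (fun B => A ∈ B ∧ A' ∈ B)).card * (X.card * (X.card - 1)) ≤
      X.card.choose m * (m * m) := by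
  have hX2 : 2 ≤ X.card := by
    have : 1 < X.card := Finset.one_lt_card.2 ⟨A, hA, A', hA', hne⟩
    omega
  by_cases hm : 2 ≤ m
  · obtain ⟨r, rfl⟩ : ∃ r, m = r + 2 := ⟨m - 2, by omega⟩
    obtain ⟨N, hN⟩ : ∃ N, X.card = N + 2 := ⟨X.card - 2, by omega⟩
    have h1 : ((powersetCard (r + 2) X).filter (fun B => A ∈ B ∧ A' ∈ B)).card ≤ N.choose r := by
      have hc : ((X.erase A).erase A').card = N := by
        rw [card_erase_of_mem (mem_erase.2 ⟨hne.symm, hA'⟩), card_erase_of_mem hA]
        omega
      have hc2 : (powersetCard r ((X.erase A).erase A')).card = N.choose r := by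
        rw [card_powersetCard, hc]
      rw [← hc2]
      apply card_le_card_of_injOn (fun B => (B.erase A).erase A')
      · intro B hB
        rw [mem_coe, mem_filter, mem_powersetCard] at hB
        obtain ⟨⟨hBX, hBc⟩, hB1, hB2⟩ := hB
        rw [mem_coe, mem_powersetCard]
        refine ⟨erase_subset_erase _ (erase_subset_erase _ hBX), ?_⟩
        rw [card_erase_of_mem (mem_erase.2 ⟨hne.symm, hB2⟩), card_erase_of_mem hB1, hBc]
        omega
      · intro B hB B' hB' h
        rw [mem_coe, mem_filter] at hB hB'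
        have e : ∀ B : Finset (Finset ℕ), A ∈ B → A' ∈ B →
            B = insert A (insert A' ((B.erase A).erase A')) := by
          intro B h1 h2
          rw [insert_erase (mem_erase.2 ⟨hne.symm, h2⟩), insert_erase h1]
        have h' : (B.erase A).erase A' = (B'.erase A).erase A' := h
        rw [e B hB.2.1 hB.2.2, e B' hB'.2.1 hB'.2.2, h']
    have h2 : N.choose r * ((N + 2) * (N + 1)) = (N + 2).choose (r + 2) * ((r + 2) * (r + 1)) := by
      have a1 : (N + 1) * N.choose r = (N + 1).choose (r + 1) * (r + 1) :=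
        Nat.add_one_mul_choose_eq N r
      have a2 : (N + 2) * (N + 1).choose (r + 1) = (N + 2).choose (r + 2) * (r + 2) :=
        Nat.add_one_mul_choose_eq (N + 1) (r + 1)
      calc N.choose r * ((N + 2) * (N + 1)) = (N + 2) * ((N + 1) * N.choose r) := by ring
        _ = (N + 2) * ((N + 1).choose (r + 1) * (r + 1)) := by rw [a1]
        _ = ((N + 2) * (N + 1).choose (r + 1)) * (r + 1) := by ring
        _ = ((N + 2).choose (r + 2) * (r + 2)) * (r + 1) := by rw [a2]
        _ = _ := by ring
    rw [hN]
    have h3 : N + 2 - 1 = N + 1 := by omega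
    rw [h3]
    calc _ ≤ N.choose r * ((N + 2) * (N + 1)) := Nat.mul_le_mul_right _ h1
      _ = (N + 2).choose (r + 2) * ((r + 2) * (r + 1)) := h2
      _ ≤ _ := Nat.mul_le_mul_left _ (Nat.mul_le_mul_left _ (by omega))
  · have h0 : (powersetCard m X).filter (fun B => A ∈ B ∧ A' ∈ B) = ∅ := by
      rw [filter_eq_empty_iff]
      intro B hB h
      rw [mem_powersetCard] at hB
      have : 1 < B.card := Finset.one_lt_card.2 ⟨A, h.1, A', h.2, hne⟩
      omega
    rw [h0, card_empty, zero_mul]
    exact Nat.zero_le _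

/-- the number of sets containing two given points -/
lemma card_sup {n k : ℕ} {P : Finset ℕ} (hP : P ⊆ range n) (hPc : P.card = 2) :
    ((powersetCard k (range n)).filter (fun A => P ⊆ A)).card ≤ (n - 2).choose (k - 2) := by
  have hc : (range n \ P).card = n - 2 := by rw [card_sdiff_of_subset hP, card_range, hPc]
  have hc2 : (powersetCard (k - 2) (range n \ P)).card = (n - 2).choose (k - 2) := by
    rw [card_powersetCard, hc]
  rw [← hc2]
  apply card_le_card_of_injOn (fun A => A \ P)
  · intro A hA
    rw [mem_coe, mem_filter, mem_powersetCard] at hA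
    rw [mem_coe, mem_powersetCard]
    refine ⟨sdiff_subset_sdiff hA.1.1 (Subset.refl _), ?_⟩
    rw [card_sdiff_of_subset hA.2, hA.1.2, hPc]
  · intro A hA B hB h
    rw [mem_coe, mem_filter] at hA hB
    have h' : A \ P = B \ P := h
    rw [← sdiff_union_of_subset hA.2, ← sdiff_union_of_subset hB.2, h']

/-- the number of sets with two points of `A` -/
lemma card_pair {n k : ℕ} {A : Finset ℕ} (hA : A ∈ powersetCard k (range n)) :
    ((powersetCard k (range n)).filter (fun A' => 2 ≤ (A ∩ A').card)).card ≤
      k.choose 2 * (n - 2).choose (k - 2) := by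
  rw [mem_powersetCard] at hA
  have h1 : (powersetCard k (range n)).filter (fun A' => 2 ≤ (A ∩ A').card) ⊆
      (powersetCard 2 A).biUnion (fun P => (powersetCard k (range n)).filter (fun A' => P ⊆ A')) := by
    intro A' h
    rw [mem_filter] at h
    obtain ⟨P, hP, hPc⟩ := exists_subset_card_eq h.2
    rw [mem_biUnion]
    exact ⟨P, mem_powersetCard.2 ⟨hP.trans inter_subset_left, hPc⟩,
      mem_filter.2 ⟨h.1, hP.trans inter_subset_right⟩⟩
  refine (card_le_card h1).trans (card_biUnion_le.trans ?_)
  have h2 : ∀ P ∈ powersetCard 2 A,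
      ((powersetCard k (range n)).filter (fun A' => P ⊆ A')).card ≤ (n - 2).choose (k - 2) :=
    fun P hP => card_sup ((mem_powersetCard.1 hP).1.trans hA.1) (mem_powersetCard.1 hP).2
  refine (sum_le_card_nsmul _ _ _ h2).trans ?_
  rw [card_powersetCard, hA.2, smul_eq_mul]

/-- the number of pairs -/
lemma card_pairs (n k : ℕ) :
    ((powersetCard k (range n)).offDiag.filter (fun p => 2 ≤ (p.1 ∩ p.2).card)).card ≤
      (powersetCard k (range n)).card * (k.choose 2 * (n - 2).choose (k - 2)) := by
  set X := powersetCard k (range n) with hX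
  have h1 : X.offDiag.filter (fun p => 2 ≤ (p.1 ∩ p.2).card) ⊆
      (X ×ˢ X).filter (fun p => 2 ≤ (p.1 ∩ p.2).card) := by
    apply filter_subset_filter
    intro p hp
    rw [mem_offDiag] at hp
    exact mem_product.2 ⟨hp.1, hp.2.1⟩
  refine (card_le_card h1).trans ?_
  rw [card_filter, sum_product]
  have h2 : ∀ A ∈ X, ∑ A' ∈ X, (if 2 ≤ (A ∩ A').card then 1 else 0) ≤
      k.choose 2 * (n - 2).choose (k - 2) := by
    intro A hA
    rw [← card_filter]
    exact card_pair hA
  refine (sum_le_card_nsmul _ _ _ h2).trans ?_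
  rw [smul_eq_mul]

/-- double counting -/
lemma sum_conf (X : Finset (Finset ℕ)) (m : ℕ) :
    ∑ B ∈ powersetCard m X, conf B =
      ∑ p ∈ X.offDiag.filter (fun p => 2 ≤ (p.1 ∩ p.2).card),
        ((powersetCard m X).filter (fun B => p.1 ∈ B ∧ p.2 ∈ B)).card := by
  have h1 : ∀ B ∈ powersetCard m X, conf B =
      ∑ p ∈ X.offDiag.filter (fun p => 2 ≤ (p.1 ∩ p.2).card),
        (if p.1 ∈ B ∧ p.2 ∈ B then 1 else 0) := by
    intro B hB
    rw [mem_powersetCard] at hB
    rw [← card_filter, filter_filter]
    unfold conf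
    congr 1
    ext p
    simp only [mem_filter, mem_offDiag]
    constructor
    · rintro ⟨⟨a, b, c⟩, d⟩
      exact ⟨⟨hB.1 a, hB.1 b, c⟩, d, a, b⟩
    · rintro ⟨⟨a, b, c⟩, d, e, f⟩
      exact ⟨⟨e, f, c⟩, d⟩
  rw [sum_congr rfl h1, sum_comm]
  refine sum_congr rfl fun p _ => ?_
  rw [← card_filter]

theorem conf_avg : S_CONF := by
  intro k hk D
  refine ⟨8 * D ^ 2 * (k.choose 2) ^ 2, fun n m hm => ?_⟩
  obtain ⟨X, hX⟩ : ∃ X, X = powersetCard k (range n) := ⟨_, rfl⟩
  have hcX : X.card = n.choose k := by rw [hX, card_powersetCard, card_range]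
  have hQ := card_pairs n k
  rw [← hX] at hQ ⊢
  rw [card_powersetCard, sum_conf]
  obtain ⟨Q, hQe⟩ : ∃ Q, Q = X.offDiag.filter (fun p => 2 ≤ (p.1 ∩ p.2).card) := ⟨_, rfl⟩
  rw [← hQe] at hQ ⊢
  by_cases hM : X.card ≤ 1
  · have h0 : Q = ∅ := by
      rw [hQe, filter_eq_empty_iff]
      intro p hp
      rw [mem_offDiag] at hp
      exact absurd (Finset.card_le_one.1 hM _ hp.1 _ hp.2.1) hp.2.2
    rw [h0, sum_empty]
    exact Nat.zero_le _
  · have hM2 : 2 ≤ X.card := by omega
    obtain ⟨S, hS⟩ : ∃ S, S = ∑ p ∈ Q, ((powersetCard m X).filter (fun B => p.1 ∈ B ∧ p.2 ∈ B)).card :=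
      ⟨_, rfl⟩
    rw [← hS]
    -- the double counting
    have e1 : S * (X.card * (X.card - 1)) ≤ Q.card * (X.card.choose m * (m * m)) := by
      rw [hS, sum_mul, ← smul_eq_mul]
      apply sum_le_card_nsmul
      intro p hp
      rw [hQe, mem_filter, mem_offDiag] at hp
      exact card_two hp.1.1 hp.1.2.1 hp.1.2.2 m
    have hn : 2 ≤ n := by
      by_contra hcon
      have : n.choose k = 0 := Nat.choose_eq_zero_of_lt (by omega)
      omega
    have hkn : k ≤ n := by
      by_contra hcon
      have : n.choose k = 0 := Nat.choose_eq_zero_of_lt (by omega)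
      omega
    have e2 : X.card * k.choose 2 = n.choose 2 * (n - 2).choose (k - 2) := by
      rw [hcX]
      exact Nat.choose_mul (by omega)
    have e3 : n * n ≤ 4 * n.choose 2 := by
      have h1 : n.choose 2 * 2 = n * (n - 1) := by
        have := Nat.add_one_mul_choose_eq (n - 1) 1
        have h2 : n - 1 + 1 = n := by omega
        rw [h2, Nat.choose_one_right] at this
        exact this.symm
      have h3 : n ≤ 2 * (n - 1) := by omega
      calc n * n ≤ n * (2 * (n - 1)) := Nat.mul_le_mul_left _ h3
        _ = 2 * (n * (n - 1)) := by ring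
        _ = 4 * n.choose 2 := by rw [← h1]; ring
    have hn2 : 0 < n.choose 2 := Nat.choose_pos hn
    obtain ⟨N, hN⟩ : ∃ N, X.card = N + 1 := ⟨X.card - 1, by omega⟩
    have hN1 : 1 ≤ N := by omega
    have e4 : S * N ≤ (k.choose 2 * (n - 2).choose (k - 2)) * (X.card.choose m * (m * m)) := by
      have h1 : S * (X.card * N) ≤ (X.card * (k.choose 2 * (n - 2).choose (k - 2))) *
          (X.card.choose m * (m * m)) := by
        have h2 : X.card - 1 = N := by omega
        rw [h2] at e1
        exact e1.trans (Nat.mul_le_mul_right _ hQ)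
      have h3 : X.card * (S * N) ≤ X.card *
          ((k.choose 2 * (n - 2).choose (k - 2)) * (X.card.choose m * (m * m))) := by
        calc X.card * (S * N) = S * (X.card * N) := by ring
          _ ≤ _ := h1
          _ = _ := by ring
      exact Nat.le_of_mul_le_mul_left h3 (by omega)
    have e5 : (N * n.choose 2) * S ≤ (N * n.choose 2) *
        (8 * D ^ 2 * (k.choose 2) ^ 2 * X.card.choose m) := by
      calc (N * n.choose 2) * S = n.choose 2 * (S * N) := by ring
        _ ≤ n.choose 2 * ((k.choose 2 * (n - 2).choose (k - 2)) * (X.card.choose m * (m * m))) :=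
            Nat.mul_le_mul_left _ e4
        _ = (n.choose 2 * (n - 2).choose (k - 2)) * k.choose 2 * (X.card.choose m * (m * m)) := by
            ring
        _ = (X.card * k.choose 2) * k.choose 2 * (X.card.choose m * (m * m)) := by rw [e2]
        _ ≤ ((2 * N) * k.choose 2) * k.choose 2 * (X.card.choose m * ((D * n) * (D * n))) := by
            have h1 : X.card ≤ 2 * N := by omega
            gcongr
        _ = 2 * N * (k.choose 2) ^ 2 * X.card.choose m * D ^ 2 * (n * n) := by ring
        _ ≤ 2 * N * (k.choose 2) ^ 2 * X.card.choose m * D ^ 2 * (4 * n.choose 2) :=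
            Nat.mul_le_mul_left _ e3
        _ = _ := by ring
    exact Nat.le_of_mul_le_mul_left e5 (Nat.mul_pos (by omega) hn2)

end Pool.Agent.N87.DC
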